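import Pool.Agent.H21.CK.Defs
import Pool.Agent.H48.CP.Pair

/-!
Rotation of cut circuits (project CP, MP_472c72): cutting the two circuits at other places changes
the signed system by `rot`.
-/

namespace H59CP

open H48CP H21CK Finset
open scoped Classical

variable {U : Type*} {σ τ : U × Bool → U × Bool} {n m c d : ℕ} {a b : ℕ → U × Bool}

/-- the circuit cut just before the position `c` -/
def rotS (n c : ℕ) (a : ℕ → U × Bool) : ℕ → U × Bool := fun i => a ((i + c) % n)

lemma rotS_zero (hc : c < n) : rotS n c a 0 = a c := by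
  simp [rotS, Nat.mod_eq_of_lt hc]

lemma rotS_lt {i : ℕ} (h : i + c < n) : rotS n c a i = a (i + c) := by
  simp [rotS, Nat.mod_eq_of_lt h]

lemma rotS_ge {i : ℕ} (hc : c < n) (hi : i < n) (h : n ≤ i + c) :
    rotS n c a i = a (i + c - n) := by
  unfold rotS
  rw [Nat.mod_eq_sub_mod h, Nat.mod_eq_of_lt (by omega)]

theorem cutSeq_rot (h : CutSeq σ n a) (hc : c < n) : CutSeq σ n (rotS n c a) where
  pos := h.pos
  inj := by
    intro i j hi hj hij
    have h1 := h.inj _ _ (Nat.mod_lt (i + c) h.pos) (Nat.mod_lt (j + c) h.pos) hij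
    rcases lt_or_ge (i + c) n with h2 | h2 <;> rcases lt_or_ge (j + c) n with h3 | h3
    · rw [Nat.mod_eq_of_lt h2, Nat.mod_eq_of_lt h3] at h1
      omega
    · rw [Nat.mod_eq_of_lt h2, Nat.mod_eq_sub_mod h3, Nat.mod_eq_of_lt (by omega)] at h1
      omega
    · rw [Nat.mod_eq_sub_mod h2, Nat.mod_eq_of_lt (by omega), Nat.mod_eq_of_lt h3] at h1
      omega
    · rw [Nat.mod_eq_sub_mod h2, Nat.mod_eq_of_lt (by omega), Nat.mod_eq_sub_mod h3,
        Nat.mod_eq_of_lt (by omega)] at h1
      omega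
  step := by
    intro i hi
    rcases lt_or_ge (i + c) n with h2 | h2
    · rw [rotS_lt h2]
      rcases lt_or_ge (i + 1 + c) n with h3 | h3
      · rw [rotS_lt h3, h.step _ (by omega)]
        congr 1
        omega
      · rw [rotS_ge hc hi h3]
        have e1 : i + c = n - 1 := by omega
        have e2 : i + 1 + c - n = 0 := by omega
        rw [e1, e2, h.close]
    · rw [rotS_ge hc (by omega) h2, rotS_ge hc hi (by omega), h.step _ (by omega)]
      congr 1
      omega
  close := by
    rw [rotS_zero hc]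
    rcases Nat.eq_zero_or_pos c with h0 | h0
    · subst h0
      rw [rotS_lt (by have := h.pos; omega), Nat.add_zero, h.close]
    · rw [rotS_ge hc (by omega) (by omega), h.step _ (by omega)]
      congr 1
      omega

lemma posn_eq (h : CutSeq σ n a) {i : ℕ} (hi : i < n) : posn n a (a i).1 = i := by
  have h1 : occ n a (a i).1 := ⟨i, hi, rfl⟩
  obtain ⟨h2, h3⟩ := posn_spec h1
  exact h.inj _ _ h2 hi h3

lemma posn_unique (h : CutSeq σ n a) {i : ℕ} {u : U} (hi : i < n) (hu : (a i).1 = u) :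
    posn n a u = i := by
  subst hu
  exact posn_eq h hi

lemma occ_rot (hc : c < n) (u : U) : occ n (rotS n c a) u ↔ occ n a u := by
  constructor
  · rintro ⟨i, _, hu⟩
    exact ⟨(i + c) % n, Nat.mod_lt _ (by omega), hu⟩
  · rintro ⟨i, hi, hu⟩
    rcases lt_or_ge i c with h1 | h1
    · refine ⟨i + n - c, by omega, ?_⟩
      rw [rotS_ge hc (by omega) (by omega), show i + n - c + c - n = i by omega]
      exact hu
    · refine ⟨i - c, by omega, ?_⟩
      rw [rotS_lt (by omega), show i - c + c = i by omega]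
      exact hu

/-- the position in the rotated sequence -/
theorem posn_rot (h : CutSeq σ n a) (hc : c < n) {u : U} (hu : occ n a u) :
    posn n (rotS n c a) u =
      if posn n a u < c then posn n a u + n - c else posn n a u - c := by
  obtain ⟨h1, h2⟩ := posn_spec hu
  split_ifs with h3
  · refine posn_unique (cutSeq_rot h hc) (by omega) ?_
    rw [rotS_ge hc (by omega) (by omega),
      show posn n a u + n - c + c - n = posn n a u by omega]
    exact h2
  · refine posn_unique (cutSeq_rot h hc) (by omega) ?_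
    rw [rotS_lt (by omega), show posn n a u - c + c = posn n a u by omega]
    exact h2

/-- the end where an element is entered does not change -/
lemma rotS_posn (h : CutSeq σ n a) (hc : c < n) {u : U} (hu : occ n a u) :
    rotS n c a (posn n (rotS n c a) u) = a (posn n a u) := by
  obtain ⟨h1, -⟩ := posn_spec hu
  rw [posn_rot h hc hu]
  split_ifs with h3
  · rw [rotS_ge hc (by omega) (by omega),
      show posn n a u + n - c + c - n = posn n a u by omega]
  · rw [rotS_lt (by omega), show posn n a u - c + c = posn n a u by omega]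

theorem sdo_rot_p (ha : CutSeq σ n a) (hc : c < n) {u : U} (hu : occ n a u) :
    (sdo n (rotS n c a) m (rotS m d b)).p u = (rot (sdo n a m b) n m c d).p u - c := by
  obtain ⟨h1, -⟩ := posn_spec hu
  simp only [sdo, rot, posn_rot ha hc hu]
  split_ifs with h2 h3 h3 <;> omega

theorem sdo_rot_q (hb : CutSeq τ m b) (hd : d < m) {u : U} (hu : occ m b u) :
    (sdo n (rotS n c a) m (rotS m d b)).q u = (rot (sdo n a m b) n m c d).q u - d := by
  obtain ⟨h1, -⟩ := posn_spec hu
  simp only [sdo, rot, posn_rot hb hd hu]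
  split_ifs with h2 h3 h3 <;> omega

theorem sdo_rot_sg (ha : CutSeq σ n a) (hb : CutSeq τ m b) (hc : c < n) (hd : d < m) {u : U}
    (hu : occ n a u) (hu' : occ m b u) :
    (sdo n (rotS n c a) m (rotS m d b)).sg u ↔ (rot (sdo n a m b) n m c d).sg u := by
  show rotS n c a (posn n (rotS n c a) u) ≠ rotS m d b (posn m (rotS m d b) u) ↔
    a (posn n a u) ≠ b (posn m b u)
  rw [rotS_posn ha hc hu, rotS_posn hb hd hu']

theorem sdo_rot_adj (ha : CutSeq σ n a) (hb : CutSeq τ m b) (hc : c < n) (hd : d < m) {u v : U}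
    (hu : occ n a u) (hu' : occ m b u) (hv : occ n a v) (hv' : occ m b v) :
    (sdo n (rotS n c a) m (rotS m d b)).G.adj u v ↔ (rot (sdo n a m b) n m c d).G.adj u v := by
  have e1 := sdo_rot_p (m := m) (d := d) (b := b) ha hc hu
  have e2 := sdo_rot_p (m := m) (d := d) (b := b) ha hc hv
  have e3 := sdo_rot_q (n := n) (c := c) (a := a) hb hd hu'
  have e4 := sdo_rot_q (n := n) (c := c) (a := a) hb hd hv'
  simp only [Sdo.G]
  rw [e1, e2, e3, e4]
  omega

variable {V : Type*}

/-- the axioms only depend on adjacency and signs inside `S` -/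
theorem ax_congr {G G' : SG V} {S : Finset V} {β : Prop}
    (hadj : ∀ u ∈ S, ∀ v ∈ S, (G.adj u v ↔ G'.adj u v)) (hsg : ∀ u ∈ S, (G.sg u ↔ G'.sg u))
    (h : SG.Ax β G S) : SG.Ax β G' S := by
  have hB : ∀ a ∈ S, ∀ b ∈ S, ∀ z ∈ S, G.Btw S a b z → G'.Btw S a b z := by
    intro a ha b hb z hz hbt v hv h1 h2 h3
    have := hbt v hv h1 h2 h3
    rw [← hadj v hv a ha, ← hadj v hv b hb, ← hadj v hv z hz]
    exact this
  constructor
  · intro a ha b hb hab h1 h2
    obtain ⟨z, hz, h3, h4, h5, h6⟩ := h.e2a a ha b hb ((hadj a ha b hb).2 hab)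
      (fun h' => h1 ((hsg a ha).1 h')) (fun h' => h2 ((hsg b hb).1 h'))
    exact ⟨z, hz, (hsg z hz).1 h3, (hadj z hz a ha).1 h4, (hadj z hz b hb).1 h5,
      hB a ha b hb z hz h6⟩
  · intro a ha b hb hne hab h1 h2 h3
    obtain ⟨z, hz, h4, h5, h6, h7⟩ := h.e2b a ha b hb hne
      (fun h' => hab ((hadj a ha b hb).1 h')) ((hsg a ha).2 h1) ((hsg b hb).2 h2)
      (h3.imp_right (by
        rintro ⟨c, hc, h8, h9⟩
        exact ⟨c, hc, (hadj c hc a ha).2 h8, (hadj c hc b hb).2 h9⟩))
    exact ⟨z, hz, fun h' => h4 ((hsg z hz).2 h'), fun h' => h5 ((hadj z hz a ha).2 h'),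
      fun h' => h6 ((hadj z hz b hb).2 h'), hB a ha b hb z hz h7⟩
  · intro x hx s hs t ht y hy hP h1 h2 h3 h4
    have hP' : G.P4 x s t y := by
      obtain ⟨p1, p2, p3, p4, p5, p6⟩ := hP
      exact ⟨(hadj x hx s hs).2 p1, (hadj s hs t ht).2 p2, (hadj t ht y hy).2 p3,
        fun h' => p4 ((hadj x hx t ht).1 h'), fun h' => p5 ((hadj x hx y hy).1 h'),
        fun h' => p6 ((hadj s hs y hy).1 h')⟩
    rcases h.e4 x hx s hs t ht y hy hP' (fun h' => h1 ((hsg x hx).1 h')) ((hsg s hs).2 h2)
      ((hsg t ht).2 h3) (fun h' => h4 ((hsg y hy).1 h')) with h5 | ⟨h5, h6⟩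
    · left
      obtain ⟨k, hk, k1, k2, k3, k4, hp, hr⟩ := h5
      refine ⟨k, hk, k1, k2, k3, k4, ?_, ?_⟩
      · unfold SG.Pat at hp ⊢
        rw [← hadj k hk x hx, ← hadj k hk s hs, ← hadj k hk t ht, ← hadj k hk y hy]
        exact hp
      · intro p hp' p1 p2 p3 p4 p5
        rw [← hadj p hp' x hx, ← hadj p hp' s hs, ← hadj p hp' t ht, ← hadj p hp' y hy,
          ← hadj p hp' k hk]
        exact hr p hp' p1 p2 p3 p4 p5
    · right
      refine ⟨h5, ?_⟩
      intro v hv v1 v2 v3 v4
      rw [← hadj v hv x hx, ← hadj v hv s hs, ← hadj v hv t ht, ← hadj v hv y hy]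
      exact h6 v hv v1 v2 v3 v4

/-- the axioms for the rotated circuits are the axioms for `rot` -/
theorem ax_rot {β : Prop} (ha : CutSeq σ n a) (hb : CutSeq τ m b) (hc : c < n) (hd : d < m)
    {S : Finset U} (hS : ∀ u ∈ S, occ n a u ∧ occ m b u) :
    SG.Ax β (sdo n (rotS n c a) m (rotS m d b)).G S ↔
      SG.Ax β (rot (sdo n a m b) n m c d).G S := by
  constructor
  · exact ax_congr
      (fun u hu v hv => sdo_rot_adj ha hb hc hd (hS u hu).1 (hS u hu).2 (hS v hv).1 (hS v hv).2)
      (fun u hu => sdo_rot_sg ha hb hc hd (hS u hu).1 (hS u hu).2)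
  · exact ax_congr
      (fun u hu v hv =>
        (sdo_rot_adj ha hb hc hd (hS u hu).1 (hS u hu).2 (hS v hv).1 (hS v hv).2).symm)
      (fun u hu => (sdo_rot_sg ha hb hc hd (hS u hu).1 (hS u hu).2).symm)

/-- a leaf pair of the rotated circuits is a leaf pair for `rot` -/
theorem leafPair_rot (ha : CutSeq σ n a) (hb : CutSeq τ m b) (hc : c < n) (hd : d < m)
    {S : Finset U} (hS : ∀ u ∈ S, occ n a u ∧ occ m b u) (u v : U) :
    LeafPair (sdo n (rotS n c a) m (rotS m d b)) S u v ↔
      LeafPair (rot (sdo n a m b) n m c d) S u v := by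
  have hp : ∀ u ∈ S, (sdo n (rotS n c a) m (rotS m d b)).p u =
      (rot (sdo n a m b) n m c d).p u - c := fun u hu => sdo_rot_p ha hc (hS u hu).1
  have hq : ∀ u ∈ S, (sdo n (rotS n c a) m (rotS m d b)).q u =
      (rot (sdo n a m b) n m c d).q u - d := fun u hu => sdo_rot_q hb hd (hS u hu).2
  have hg : ∀ u ∈ S, ((sdo n (rotS n c a) m (rotS m d b)).sg u ↔
      (rot (sdo n a m b) n m c d).sg u) :=
    fun u hu => sdo_rot_sg ha hb hc hd (hS u hu).1 (hS u hu).2
  have hG : ∀ u ∈ S, ∀ v ∈ S, ((sdo n (rotS n c a) m (rotS m d b)).G.adj u v ↔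
      (rot (sdo n a m b) n m c d).G.adj u v) := fun u hu v hv =>
    sdo_rot_adj ha hb hc hd (hS u hu).1 (hS u hu).2 (hS v hv).1 (hS v hv).2
  constructor
  · intro h
    refine ⟨h.ha, h.hb, h.ne, ?_, ?_, ?_⟩
    · intro w hw
      have := h.cp w hw
      rw [hp u h.ha, hp v h.hb, hp w hw] at this
      omega
    · intro w hw
      have := h.cq w hw
      rw [hq u h.ha, hq v h.hb, hq w hw] at this
      omega
    · rw [← hG u h.ha v h.hb, ← hg u h.ha, ← hg v h.hb]
      exact h.red
  · intro h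
    refine ⟨h.ha, h.hb, h.ne, ?_, ?_, ?_⟩
    · intro w hw
      rw [hp u h.ha, hp v h.hb, hp w hw]
      have := h.cp w hw
      omega
    · intro w hw
      rw [hq u h.ha, hq v h.hb, hq w hw]
      have := h.cq w hw
      omega
    · rw [hG u h.ha v h.hb, hg u h.ha, hg v h.hb]
      exact h.red

end H59CP
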